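import Mathlib

/-!
# Rigid chains in the Edwards-Anderson model: deterministic part
-/

set_option autoImplicit false

open Finset

namespace Pool.Agent.N773.RI

variable {d : ℕ}

/-- spin configurations -/
def Cfg (σ : (Fin d → ℤ) → ℝ) : Prop := ∀ v, σ v = 1 ∨ σ v = -1

/-- ground states -/
def GS (J : (Fin d → ℤ) × Fin d → ℝ) (σ : (Fin d → ℤ) → ℝ) : Prop :=
  Cfg σ ∧ ∀ ρ : (Fin d → ℤ) → ℝ, Cfg ρ → {v | ρ v ≠ σ v}.Finite → ρ ≠ σ →
    0 < ∑ᶠ e : (Fin d → ℤ) × Fin d,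
      J e * (σ e.1 * σ (e.1 + (Pi.single e.2 (1 : ℤ) : Fin d → ℤ))
        - ρ e.1 * ρ (e.1 + (Pi.single e.2 (1 : ℤ) : Fin d → ℤ)))

/-- the sites of a chain -/
def ch (v : Fin d → ℤ) (j : Fin d) (y : ℕ) : Fin d → ℤ := v + Pi.single j (y : ℤ)

lemma ch_inj {v : Fin d → ℤ} {j : Fin d} {y y' : ℕ} (h : ch v j y = ch v j y') : y = y' := by
  have h1 := congrFun h j
  simp only [ch, Pi.add_apply, Pi.single_eq_same, add_right_inj, Nat.cast_inj] at h1
  exact h1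

lemma ch_succ (v : Fin d → ℤ) (j : Fin d) (y : ℕ) :
    ch v j y + (Pi.single j (1 : ℤ) : Fin d → ℤ) = ch v j (y + 1) := by
  unfold ch
  rw [add_assoc, ← Pi.single_add]
  push_cast
  rfl

/-- the bonds of a chain -/
def cb (v : Fin d → ℤ) (j : Fin d) (m : ℕ) : Finset ((Fin d → ℤ) × Fin d) :=
  (range m).image fun y => (ch v j y, j)

/-- the bonds with an end in a chain -/
def tb (v : Fin d → ℤ) (j : Fin d) (m : ℕ) : Finset ((Fin d → ℤ) × Fin d) :=
  ((range (m + 1)).image (ch v j) ×ˢ univ) ∪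
    (((range (m + 1)).image (ch v j) ×ˢ (univ : Finset (Fin d))).image
      fun e => (e.1 - (Pi.single e.2 (1 : ℤ) : Fin d → ℤ), e.2))

lemma mem_cb {v : Fin d → ℤ} {j : Fin d} {m : ℕ} {e : (Fin d → ℤ) × Fin d} :
    e ∈ cb v j m ↔ ∃ y < m, e = (ch v j y, j) := by
  unfold cb
  rw [mem_image]
  constructor
  · rintro ⟨y, hy, rfl⟩
    exact ⟨y, mem_range.1 hy, rfl⟩
  · rintro ⟨y, hy, rfl⟩
    exact ⟨y, mem_range.2 hy, rfl⟩

lemma mem_tb {v : Fin d → ℤ} {j : Fin d} {m : ℕ} {e : (Fin d → ℤ) × Fin d} :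
    e ∈ tb v j m ↔ (∃ y ≤ m, e.1 = ch v j y) ∨
      ∃ y ≤ m, e.1 + (Pi.single e.2 (1 : ℤ) : Fin d → ℤ) = ch v j y := by
  unfold tb
  rw [mem_union, mem_product, mem_image, mem_image]
  constructor
  · rintro (⟨⟨y, hy, h⟩, -⟩ | ⟨f, hf, rfl⟩)
    · exact Or.inl ⟨y, Nat.lt_succ_iff.1 (mem_range.1 hy), h.symm⟩
    · rw [mem_product, mem_image] at hf
      obtain ⟨⟨y, hy, h⟩, -⟩ := hf
      refine Or.inr ⟨y, Nat.lt_succ_iff.1 (mem_range.1 hy), ?_⟩
      simp only [sub_add_cancel]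
      exact h.symm
  · rintro (⟨y, hy, h⟩ | ⟨y, hy, h⟩)
    · exact Or.inl ⟨⟨y, mem_range.2 (Nat.lt_succ_of_le hy), h.symm⟩, mem_univ _⟩
    · refine Or.inr ⟨(e.1 + (Pi.single e.2 (1 : ℤ) : Fin d → ℤ), e.2), ?_, ?_⟩
      · rw [mem_product, mem_image]
        exact ⟨⟨y, mem_range.2 (Nat.lt_succ_of_le hy), h.symm⟩, mem_univ _⟩
      · simp

lemma card_tb (v : Fin d → ℤ) (j : Fin d) (m : ℕ) : (tb v j m).card ≤ 2 * d * (m + 1) := by
  have h1 : (((range (m + 1)).image (ch v j)) ×ˢ (univ : Finset (Fin d))).card ≤ (m + 1) * d := by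
    rw [card_product, card_univ, Fintype.card_fin]
    exact Nat.mul_le_mul_right d (card_image_le.trans (le_of_eq (card_range _)))
  unfold tb
  refine (card_union_le _ _).trans ?_
  have h2 := (card_image_le (s := ((range (m + 1)).image (ch v j)) ×ˢ (univ : Finset (Fin d)))
    (f := fun e => (e.1 - (Pi.single e.2 (1 : ℤ) : Fin d → ℤ), e.2))).trans h1
  have h3 : 2 * d * (m + 1) = (m + 1) * d + (m + 1) * d := by ring
  rw [h3]
  exact Nat.add_le_add h1 h2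

lemma cb_tb {v : Fin d → ℤ} {j : Fin d} {m : ℕ} {e : (Fin d → ℤ) × Fin d} (h : e ∈ cb v j m) :
    e ∈ tb v j m := by
  obtain ⟨y, hy, rfl⟩ := mem_cb.1 h
  exact mem_tb.2 (Or.inl ⟨y, hy.le, rfl⟩)

/-- strong couplings along the chain, weak couplings around it -/
def Trap (a ε : ℝ) (J : (Fin d → ℤ) × Fin d → ℝ) (v : Fin d → ℤ) (j : Fin d) (m : ℕ) : Prop :=
  ∀ e ∈ tb v j m, (e ∈ cb v j m → a ≤ |J e|) ∧ (e ∉ cb v j m → |J e| ≤ ε)

lemma pm_mul {σ : (Fin d → ℤ) → ℝ} (h : Cfg σ) (v w : Fin d → ℤ) :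
    σ v * σ w = 1 ∨ σ v * σ w = -1 := by
  rcases h v with h1 | h1 <;> rcases h w with h2 | h2 <;> rw [h1, h2] <;> norm_num

/-- **The bonds of the chain are satisfied in all ground states.** -/
theorem rigid {a ε : ℝ} {J : (Fin d → ℤ) × Fin d → ℝ} {v : Fin d → ℤ} {j : Fin d} {m : ℕ}
    (ha : 0 < a) (hε : 0 ≤ ε) (hs : 2 * d * (m + 1) * ε < a) (hT : Trap a ε J v j m)
    {σ : (Fin d → ℤ) → ℝ} (hσ : GS J σ) {y : ℕ} (hy : y < m) :
    0 < J (ch v j y, j) * (σ (ch v j y) * σ (ch v j (y + 1))) := by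
  classical
  by_contra hcon
  push Not at hcon
  set e0 : (Fin d → ℤ) × Fin d := (ch v j y, j) with he0
  have he0c : e0 ∈ cb v j m := mem_cb.2 ⟨y, hy, rfl⟩
  have hJ0 : a ≤ |J e0| := (hT e0 (cb_tb he0c)).1 he0c
  have hneg : J e0 * (σ (ch v j y) * σ (ch v j (y + 1))) ≤ -a := by
    rcases pm_mul hσ.1 (ch v j y) (ch v j (y + 1)) with h1 | h1
    · rw [h1, mul_one] at hcon ⊢
      rw [abs_of_nonpos hcon] at hJ0
      linarith
    · rw [h1, mul_neg, mul_one] at hcon ⊢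
      rw [abs_of_nonneg (by linarith)] at hJ0
      linarith
  set A : Finset (Fin d → ℤ) := (Ioc y m).image (ch v j) with hA
  have hchA : ∀ z, ch v j z ∈ A ↔ y < z ∧ z ≤ m := by
    intro z
    rw [hA, mem_image]
    constructor
    · rintro ⟨z', hz', h⟩
      rw [← ch_inj h]
      exact mem_Ioc.1 hz'
    · intro h
      exact ⟨z, mem_Ioc.2 h, rfl⟩
  set ρ : (Fin d → ℤ) → ℝ := fun w => if w ∈ A then -σ w else σ w with hρ
  have hρA : ∀ w, w ∈ A → ρ w = -σ w := fun w hw => if_pos hw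
  have hρn : ∀ w, w ∉ A → ρ w = σ w := fun w hw => if_neg hw
  have hCρ : Cfg ρ := by
    intro w
    by_cases hw : w ∈ A
    · rw [hρA w hw]
      rcases hσ.1 w with h1 | h1 <;> rw [h1] <;> norm_num
    · rw [hρn w hw]
      exact hσ.1 w
  have hfin : {w | ρ w ≠ σ w}.Finite := by
    refine (Finset.finite_toSet A).subset fun w hw => ?_
    by_contra hwA
    exact hw (hρn w hwA)
  have hne : ρ ≠ σ := by
    intro h
    have h1 : ch v j (y + 1) ∈ A := (hchA _).2 ⟨by omega, by omega⟩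
    have h2 := hρA _ h1
    rw [h] at h2
    rcases hσ.1 (ch v j (y + 1)) with h3 | h3 <;> rw [h3] at h2 <;> norm_num at h2
  have hlt := hσ.2 ρ hCρ hfin hne
  have hsup : Function.support (fun e : (Fin d → ℤ) × Fin d =>
      J e * (σ e.1 * σ (e.1 + (Pi.single e.2 (1 : ℤ) : Fin d → ℤ))
        - ρ e.1 * ρ (e.1 + (Pi.single e.2 (1 : ℤ) : Fin d → ℤ)))) ⊆ (tb v j m : Set _) := by
    intro e he
    rw [Function.mem_support] at he
    by_contra hn
    apply he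
    have hn' : e ∉ tb v j m := hn
    rw [mem_tb, not_or] at hn'
    have h1 : e.1 ∉ A := by
      intro h
      obtain ⟨z, hz, h2⟩ := mem_image.1 h
      exact hn'.1 ⟨z, (mem_Ioc.1 hz).2, h2.symm⟩
    have h2 : e.1 + (Pi.single e.2 (1 : ℤ) : Fin d → ℤ) ∉ A := by
      intro h
      obtain ⟨z, hz, h2⟩ := mem_image.1 h
      exact hn'.2 ⟨z, (mem_Ioc.1 hz).2, h2.symm⟩
    rw [hρn _ h1, hρn _ h2, sub_self, mul_zero]
  rw [finsum_eq_sum_of_support_subset _ hsup, ← add_sum_erase _ _ (cb_tb he0c)] at hlt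
  have ht0 : J e0 * (σ e0.1 * σ (e0.1 + (Pi.single e0.2 (1 : ℤ) : Fin d → ℤ))
        - ρ e0.1 * ρ (e0.1 + (Pi.single e0.2 (1 : ℤ) : Fin d → ℤ))) ≤ -(2 * a) := by
    have h1 : e0.1 + (Pi.single e0.2 (1 : ℤ) : Fin d → ℤ) = ch v j (y + 1) := ch_succ v j y
    have h2 : ρ (ch v j (y + 1)) = -σ (ch v j (y + 1)) :=
      hρA _ ((hchA _).2 ⟨by omega, by omega⟩)
    have h3 : ρ e0.1 = σ e0.1 := hρn _ fun h => by
      have := ((hchA y).1 h).1
      omega
    rw [h1, h2, h3]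
    have h4 : e0.1 = ch v j y := rfl
    rw [h4]
    nlinarith [hneg]
  have hte : ∀ e ∈ (tb v j m).erase e0,
      J e * (σ e.1 * σ (e.1 + (Pi.single e.2 (1 : ℤ) : Fin d → ℤ))
        - ρ e.1 * ρ (e.1 + (Pi.single e.2 (1 : ℤ) : Fin d → ℤ))) ≤ 2 * ε := by
    intro e he
    have he1 := (mem_erase.1 he).1
    have he2 := (mem_erase.1 he).2
    by_cases hc : e ∈ cb v j m
    · obtain ⟨z, hz, rfl⟩ := mem_cb.1 hc
      have hzy : z ≠ y := fun h => he1 (by rw [h])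
      simp only [ch_succ]
      have h1 : ρ (ch v j z) * ρ (ch v j (z + 1)) = σ (ch v j z) * σ (ch v j (z + 1)) := by
        rcases lt_or_gt_of_ne hzy with h | h
        · rw [hρn _ fun h' => by have := ((hchA _).1 h').1; omega,
            hρn _ fun h' => by have := ((hchA _).1 h').1; omega]
        · rw [hρA _ ((hchA _).2 ⟨by omega, by omega⟩), hρA _ ((hchA _).2 ⟨by omega, by omega⟩)]
          ring
      rw [h1, sub_self, mul_zero]
      linarith
    · have h1 := (hT e he2).2 hc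
      have h2 : |σ e.1 * σ (e.1 + (Pi.single e.2 (1 : ℤ) : Fin d → ℤ))
        - ρ e.1 * ρ (e.1 + (Pi.single e.2 (1 : ℤ) : Fin d → ℤ))| ≤ 2 := by
        rcases pm_mul hσ.1 e.1 (e.1 + (Pi.single e.2 (1 : ℤ) : Fin d → ℤ)) with h2 | h2 <;>
        rcases pm_mul hCρ e.1 (e.1 + (Pi.single e.2 (1 : ℤ) : Fin d → ℤ)) with h3 | h3 <;>
        rw [h2, h3] <;> norm_num
      refine (le_abs_self _).trans ?_
      rw [abs_mul]
      have h3 := mul_le_mul h1 h2 (abs_nonneg _) hε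
      linarith
  have hsum := sum_le_card_nsmul _ _ _ hte
  have hcard : (((tb v j m).erase e0).card : ℝ) ≤ 2 * d * (m + 1) := by
    have h1 := (card_le_card (erase_subset e0 (tb v j m))).trans (card_tb v j m)
    exact_mod_cast h1
  rw [nsmul_eq_mul] at hsum
  have h5 : (((tb v j m).erase e0).card : ℝ) * (2 * ε) ≤ 2 * d * (m + 1) * (2 * ε) :=
    mul_le_mul_of_nonneg_right hcard (by linarith)
  nlinarith [hsum, h5, hlt, ht0, hs]

end Pool.Agent.N773.RI
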