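import Pool.Agent.N773.RI.Prob

/-!
# Rigid chains in the Edwards-Anderson model: the two regimes
-/

set_option autoImplicit false

open Finset MeasureTheory ProbabilityTheory Filter

namespace Pool.Agent.N773.RI

variable {d : ℕ}

lemma exists_a (μ : Measure ℝ) [IsProbabilityMeasure μ] (h0 : μ {0} = 0) :
    ∃ a : ℝ, 0 < a ∧ 0 < μ {x | a ≤ |x|} := by
  by_contra hcon
  push Not at hcon
  have h1 : ∀ n : ℕ, μ {x : ℝ | 1 / ((n : ℝ) + 1) ≤ |x|} = 0 := fun n =>
    le_antisymm (hcon _ Nat.one_div_pos_of_nat) bot_le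
  have h2 : (Set.univ : Set ℝ) ⊆ {0} ∪ ⋃ n : ℕ, {x : ℝ | 1 / ((n : ℝ) + 1) ≤ |x|} := by
    intro x _
    by_cases hx : x = 0
    · left; exact hx
    · right
      obtain ⟨n, hn⟩ := exists_nat_one_div_lt (abs_pos.2 hx)
      exact Set.mem_iUnion.2 ⟨n, hn.le⟩
  have h3 : μ Set.univ ≤ 0 := by
    refine (measure_mono h2).trans ((measure_union_le _ _).trans ?_)
    rw [h0, zero_add]
    exact (measure_iUnion_null h1).le
  rw [measure_univ] at h3
  exact absurd h3 (by simp)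

lemma real_le (μ : Measure ℝ) [IsProbabilityMeasure μ] {S : Set ℝ} {q : ℝ} (h : q ≤ μ.real S) :
    ENNReal.ofReal q ≤ μ S := by
  refine (ENNReal.ofReal_le_ofReal h).trans (le_of_eq ?_)
  exact ofReal_measureReal

lemma pl_ch (x : Fin d → ℤ) (i j : Fin d) (k y : ℕ) :
    ch (pl x i k) j y = x + Pi.single i ((2 * k : ℕ) : ℤ) + Pi.single j (y : ℤ) := by
  unfold ch pl
  push_cast
  rfl

lemma ch_next (v : Fin d → ℤ) (j : Fin d) (y : ℕ) :
    ch v j (y + 1) = ch v j y + (Pi.single j (1 : ℤ) : Fin d → ℤ) := (ch_succ v j y).symm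

theorem part1 (μ : Measure ℝ) [IsProbabilityMeasure μ] (hz : μ {0} = 0)
    (h0 : ∀ ε : ℝ, 0 < ε → 0 < μ {x | |x| ≤ ε}) (m : ℕ) :
    ∃ C : ℝ, ∀ᵐ J ∂(Lw d μ), ∃ n₀ : ℕ, ∀ n : ℕ, n₀ ≤ n →
      ∀ x : Fin d → ℤ, (∀ l, |x l| ≤ n) → ∀ i j : Fin d, i ≠ j →
        ∃ k : ℕ, (k : ℝ) ≤ C * Real.log n ∧ ∀ σ, GS J σ → ∀ y < m,
          0 < J (x + Pi.single i (k : ℤ) + Pi.single j (y : ℤ), j) *
            (σ (x + Pi.single i (k : ℤ) + Pi.single j (y : ℤ)) *
              σ (x + Pi.single i (k : ℤ) + Pi.single j (y : ℤ) +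
                (Pi.single j (1 : ℤ) : Fin d → ℤ))) := by
  obtain ⟨a, ha, hμa⟩ := exists_a μ hz
  set ε : ℝ := a / (2 * d * (m + 1) + 1) with hε
  have hD : (0 : ℝ) < 2 * d * (m + 1) + 1 := by positivity
  have hε0 : 0 < ε := by positivity
  have hs : 2 * d * (m + 1) * ε < a := by
    rw [hε, mul_div_assoc', div_lt_iff₀ hD]
    nlinarith
  set q : ℝ := min (μ.real {x | |x| ≤ ε}) (μ.real {x | a ≤ |x|}) with hq
  have hq0 : 0 < q := by
    rw [hq, lt_min_iff]
    constructor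
    · exact ENNReal.toReal_pos (h0 ε hε0).ne' (measure_ne_top _ _)
    · exact ENNReal.toReal_pos hμa.ne' (measure_ne_top _ _)
  have hq1 : q ≤ 1 := (min_le_left _ _).trans measureReal_le_one
  set p : ℝ := q ^ (2 * d * (m + 1)) with hp
  have hp0 : 0 < p := pow_pos hq0 _
  refine ⟨2 * ((d + 2) / p + 1), ?_⟩
  have hgood := eventually_good (d := d) μ (a := a) (ε := fun _ => ε) (m := fun _ => m)
    (T := fun n => ⌈((d : ℝ) + 2) * Real.log n / p⌉₊) (q := fun _ => q) (n1 := 0)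
    (fun _ => hq0.le) (fun _ => hq1) (fun _ => real_le μ (min_le_left _ _))
    (fun _ => real_le μ (min_le_right _ _)) (fun n _ => by
      have h1 := Nat.le_ceil (((d : ℝ) + 2) * Real.log n / p)
      rw [div_le_iff₀ hp0] at h1
      exact h1)
  filter_upwards [hgood] with J hJ
  obtain ⟨n₀, hn₀⟩ := hJ
  refine ⟨max n₀ 3, fun n hn x hx i j hij => ?_⟩
  obtain ⟨k, hk, hT⟩ := hn₀ n ((le_max_left _ _).trans hn) x hx i j hij
  refine ⟨2 * k, ?_, fun σ hσ y hy => ?_⟩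
  · have h3 : (3 : ℝ) ≤ n := by exact_mod_cast (le_max_right _ _).trans hn
    have hlog : 1 ≤ Real.log n := by
      rw [Real.le_log_iff_exp_le (by linarith)]
      exact (Real.exp_one_lt_d9.le.trans (by norm_num)).trans h3
    have h4 : (k : ℝ) < ((d : ℝ) + 2) * Real.log n / p := Nat.lt_ceil.1 hk
    push_cast
    have h5 : ((d : ℝ) + 2) * Real.log n / p = (d + 2) / p * Real.log n := by ring
    rw [h5] at h4
    nlinarith
  · have h1 := rigid ha hε0.le hs hT hσ hy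
    rw [ch_next, pl_ch] at h1
    exact h1

/-- numbers: the growing regime -/
lemma numbers {A θ δ c : ℝ} (hA : 0 < A) (hθ : 0 < θ) (hδ : 0 < δ) (hc : 0 < c) (hc2 : 2 * c ≤ 1)
    (hcθ : 4 * (2 * d) * A * c ≤ θ / 2) :
    ∀ᶠ n : ℕ in atTop, ((d : ℝ) + 2) * Real.log n ≤
      (⌊(n : ℝ) ^ θ / 2⌋₊ : ℝ) * (δ / ((⌊c * Real.log n / Real.log (Real.log n)⌋₊ : ℝ) + 1) ^ A) ^
        (2 * d * (⌊c * Real.log n / Real.log (Real.log n)⌋₊ + 1)) := by
  have hn : Tendsto (fun n : ℕ => (n : ℝ)) atTop atTop := tendsto_natCast_atTop_atTop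
  have hL : Tendsto (fun n : ℕ => Real.log n) atTop atTop := Real.tendsto_log_atTop.comp hn
  have hl : Tendsto (fun n : ℕ => Real.log (Real.log n)) atTop atTop :=
    Real.tendsto_log_atTop.comp hL
  have e1 : ∀ᶠ n : ℕ in atTop, 1 ≤ Real.log (Real.log n) := hl.eventually_ge_atTop 1
  have e2 : ∀ᶠ n : ℕ in atTop, -Real.log δ / A ≤ Real.log (Real.log n) :=
    hl.eventually_ge_atTop _
  have e3 : ∀ᶠ n : ℕ in atTop, Real.log (Real.log n) ≤ c * Real.log n := by
    have h1 := Real.isLittleO_log_id_atTop.bound hc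
    have h2 := hL.eventually h1
    filter_upwards [h2, e1, hL.eventually_ge_atTop 0] with n hn1 hn2 hn3
    rw [Real.norm_eq_abs, Real.norm_eq_abs, id, abs_of_nonneg (by linarith),
      abs_of_nonneg hn3] at hn1
    exact hn1
  have e4 : ∀ᶠ n : ℕ in atTop, 4 * ((d : ℝ) + 2) * Real.log n ≤ (n : ℝ) ^ (θ / 2) := by
    have h1 := (isLittleO_log_rpow_atTop (half_pos hθ)).bound
      (show (0 : ℝ) < 1 / (4 * ((d : ℝ) + 2)) by positivity)
    have h2 := hn.eventually h1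
    filter_upwards [h2, hL.eventually_ge_atTop 0, eventually_ge_atTop 1] with n hn1 hn2 hn3
    have h3 : (0 : ℝ) ≤ (n : ℝ) ^ (θ / 2) := by positivity
    rw [Real.norm_eq_abs, Real.norm_eq_abs, abs_of_nonneg hn2, abs_of_nonneg h3, one_div,
      inv_mul_eq_div, le_div_iff₀ (by positivity)] at hn1
    linarith
  have e5 : ∀ᶠ n : ℕ in atTop, 4 ≤ (n : ℝ) ^ θ :=
    ((tendsto_rpow_atTop hθ).comp hn).eventually_ge_atTop 4
  filter_upwards [e1, e2, e3, e4, e5, eventually_ge_atTop 2] with n h1 h2 h3 h4 h5 h6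
  set L := Real.log n with hLd
  set l := Real.log L with hld
  have hl0 : 0 < l := by linarith
  have hLl : l ≤ L := by
    by_cases hL0 : 0 < L
    · exact (Real.log_le_sub_one_of_pos hL0).trans (by linarith)
    · exfalso
      push Not at hL0
      have h7 : c * L ≤ 0 := mul_nonpos_of_nonneg_of_nonpos hc.le hL0
      linarith
  have hL0 : 0 < L := by linarith
  set M : ℝ := (⌊c * L / l⌋₊ : ℝ) + 1 with hM
  have hM0 : 1 ≤ M := by
    rw [hM]
    have : (0 : ℝ) ≤ (⌊c * L / l⌋₊ : ℝ) := by positivity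
    linarith
  have hM1 : M ≤ 2 * (c * L / l) := by
    have h7 : (⌊c * L / l⌋₊ : ℝ) ≤ c * L / l := Nat.floor_le (by positivity)
    have h8 : 1 ≤ c * L / l := by rw [le_div_iff₀ hl0]; linarith
    rw [hM]; linarith
  have hM2 : M ≤ L := by
    have h7 : 2 * (c * L / l) ≤ L := by
      rw [← mul_div_assoc, div_le_iff₀ hl0]
      nlinarith
    linarith
  have hlogM : Real.log M ≤ l := Real.log_le_log (by linarith) hM2
  have hq : δ / M ^ A = Real.exp (Real.log δ - A * Real.log M) := by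
    rw [Real.exp_sub, Real.exp_log hδ, Real.rpow_def_of_pos (by linarith), mul_comm A]
  have hcast : ((2 * d * (⌊c * L / l⌋₊ + 1) : ℕ) : ℝ) = 2 * d * M := by
    rw [hM]; push_cast; ring
  have hpow : (n : ℝ) ^ (-(θ / 2)) ≤ (δ / M ^ A) ^ (2 * d * (⌊c * L / l⌋₊ + 1)) := by
    rw [hq, ← Real.exp_nat_mul, hcast, Real.rpow_def_of_pos (by positivity)]
    apply Real.exp_le_exp.2
    have h7 : -(2 * A * l) ≤ Real.log δ - A * Real.log M := by
      have h8 : -Real.log δ ≤ l * A := by rwa [div_le_iff₀ hA] at h2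
      nlinarith
    have h9 : 2 * d * M * (2 * A * l) ≤ θ / 2 * L := by
      have h10 : M * l ≤ 2 * c * L := by
        have := mul_le_mul_of_nonneg_right hM1 hl0.le
        have h11 : 2 * (c * L / l) * l = 2 * c * L := by field_simp
        linarith
      have h12 : 2 * d * M * (2 * A * l) = (2 * d) * (2 * A) * (M * l) := by ring
      rw [h12]
      have h13 : (2 * (d : ℝ)) * (2 * A) * (M * l) ≤ (2 * (d : ℝ)) * (2 * A) * (2 * c * L) :=
        mul_le_mul_of_nonneg_left h10 (by positivity)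
      have h14 : (2 * (d : ℝ)) * (2 * A) * (2 * c * L) = 4 * (2 * d) * A * c * L := by ring
      rw [h14] at h13
      exact h13.trans (mul_le_mul_of_nonneg_right hcθ hL0.le)
    have h15 : 2 * (d : ℝ) * M * (-(2 * A * l)) ≤ 2 * d * M * (Real.log δ - A * Real.log M) :=
      mul_le_mul_of_nonneg_left h7 (by positivity)
    rw [← hLd]
    linarith
  have hfl : (n : ℝ) ^ θ / 4 ≤ (⌊(n : ℝ) ^ θ / 2⌋₊ : ℝ) := by
    have h7 := Nat.lt_floor_add_one ((n : ℝ) ^ θ / 2)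
    linarith
  have hn0 : (0 : ℝ) < n := by
    have : 0 < n := by omega
    exact_mod_cast this
  calc ((d : ℝ) + 2) * L ≤ (n : ℝ) ^ (θ / 2) / 4 := by linarith
    _ = (n : ℝ) ^ θ / 4 * (n : ℝ) ^ (-(θ / 2)) := by
        rw [div_mul_eq_mul_div, ← Real.rpow_add hn0]
        congr 2
        ring
    _ ≤ _ := mul_le_mul hfl hpow (by positivity) (by positivity)

theorem part2 (μ : Measure ℝ) [IsProbabilityMeasure μ] (hz : μ {0} = 0)
    {A ε₀ : ℝ} (hA : 0 < A) (hε₀ : 0 < ε₀)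
    (h0 : ∀ ε : ℝ, 0 < ε → ε ≤ ε₀ → ENNReal.ofReal (ε ^ A) ≤ μ {x | |x| ≤ ε})
    {θ : ℝ} (hθ : 0 < θ) :
    ∃ c : ℝ, 0 < c ∧ ∀ᵐ J ∂(Lw d μ), ∃ n₀ : ℕ, ∀ n : ℕ, n₀ ≤ n →
      ∀ x : Fin d → ℤ, (∀ l, |x l| ≤ n) → ∀ i j : Fin d, i ≠ j →
        ∃ k : ℕ, (k : ℝ) ≤ (n : ℝ) ^ θ ∧ ∀ σ, GS J σ → ∀ y : ℕ,
          (y : ℝ) + 1 ≤ c * Real.log n / Real.log (Real.log n) →
          0 < J (x + Pi.single i (k : ℤ) + Pi.single j (y : ℤ), j) *
            (σ (x + Pi.single i (k : ℤ) + Pi.single j (y : ℤ)) *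
              σ (x + Pi.single i (k : ℤ) + Pi.single j (y : ℤ) +
                (Pi.single j (1 : ℤ) : Fin d → ℤ))) := by
  obtain ⟨a, ha, hμa⟩ := exists_a μ hz
  set δ : ℝ := μ.real {x | a ≤ |x|} with hδ
  have hδ0 : 0 < δ := ENNReal.toReal_pos hμa.ne' (measure_ne_top _ _)
  have hδ1 : δ ≤ 1 := measureReal_le_one
  set κ : ℝ := min (a / (2 * d + 1)) (min ε₀ 1) with hκ
  have hκ0 : 0 < κ := lt_min (by positivity) (lt_min hε₀ one_pos)
  have hκ1 : κ ≤ 1 := (min_le_right _ _).trans (min_le_right _ _)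
  have hκ2 : κ ≤ ε₀ := (min_le_right _ _).trans (min_le_left _ _)
  have hκ3 : 2 * d * κ < a := by
    have h1 : κ ≤ a / (2 * d + 1) := min_le_left _ _
    rw [le_div_iff₀ (by positivity)] at h1
    nlinarith
  set c : ℝ := min (1 / 2) (θ / (8 * (2 * d + 1) * A)) with hc
  have hc0 : 0 < c := lt_min (by norm_num) (by positivity)
  have hc2 : 2 * c ≤ 1 := by
    have : c ≤ 1 / 2 := min_le_left _ _
    linarith
  have hcθ : 4 * (2 * d) * A * c ≤ θ / 2 := by
    have h1 : c ≤ θ / (8 * (2 * d + 1) * A) := min_le_right _ _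
    rw [le_div_iff₀ (by positivity)] at h1
    nlinarith [mul_pos hc0 hA]
  refine ⟨c, hc0, ?_⟩
  set m : ℕ → ℕ := fun n => ⌊c * Real.log n / Real.log (Real.log n)⌋₊ with hm
  have hκA : κ ^ A ≤ 1 := Real.rpow_le_one hκ0.le hκ1 hA.le
  have hκA0 : 0 < κ ^ A := Real.rpow_pos_of_pos hκ0 _
  have hmA : ∀ n, 1 ≤ ((m n : ℝ) + 1) ^ A := fun n =>
    Real.one_le_rpow (by have : (0 : ℝ) ≤ m n := by positivity
                         linarith) hA.le
  obtain ⟨n1, hn1⟩ := eventually_atTop.1 (numbers (d := d) hA hθ (mul_pos hδ0 hκA0) hc0 hc2 hcθ)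
  have hgood := eventually_good (d := d) μ (a := a) (ε := fun n => κ / ((m n : ℝ) + 1)) (m := m)
    (T := fun n => ⌊(n : ℝ) ^ θ / 2⌋₊) (q := fun n => δ * κ ^ A / ((m n : ℝ) + 1) ^ A) (n1 := n1)
    (fun n => by positivity)
    (fun n => by
      have h1 := hmA n
      rw [div_le_one (by linarith)]
      nlinarith)
    (fun n => by
      have h1 : (0 : ℝ) ≤ m n := by positivity
      refine le_trans (ENNReal.ofReal_le_ofReal ?_) (h0 (κ / ((m n : ℝ) + 1)) (by positivity) ?_)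
      · rw [Real.div_rpow hκ0.le (by positivity)]
        gcongr
        nlinarith
      · exact (div_le_self hκ0.le (by linarith)).trans hκ2)
    (fun n => by
      refine real_le μ ?_
      rw [← hδ]
      have h1 := hmA n
      refine (div_le_self (by positivity) h1).trans ?_
      nlinarith)
    hn1
  filter_upwards [hgood] with J hJ
  obtain ⟨n₀, hn₀⟩ := hJ
  refine ⟨n₀, fun n hn x hx i j hij => ?_⟩
  obtain ⟨k, hk, hT⟩ := hn₀ n hn x hx i j hij
  refine ⟨2 * k, ?_, fun σ hσ y hy => ?_⟩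
  · have h4 : (k : ℝ) < (⌊(n : ℝ) ^ θ / 2⌋₊ : ℝ) := by exact_mod_cast hk
    have h5 : (⌊(n : ℝ) ^ θ / 2⌋₊ : ℝ) ≤ (n : ℝ) ^ θ / 2 := Nat.floor_le (by positivity)
    push_cast
    linarith
  · have hym : y < m n := by
      have h1 : y + 1 ≤ m n := by
        rw [hm]
        apply Nat.le_floor
        push_cast
        exact hy
      omega
    have h6 : (0 : ℝ) < (m n : ℝ) + 1 := by positivity
    have h1 := rigid ha (by positivity) (by
      rw [mul_assoc, mul_div_cancel₀ _ h6.ne']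
      exact hκ3) hT hσ hym
    rw [ch_next, pl_ch] at h1
    exact h1

end Pool.Agent.N773.RI
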