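import Pool.Agent.N773.RI.Chain

/-!
# Rigid chains in the Edwards-Anderson model: probability
-/

set_option autoImplicit false

open Finset MeasureTheory ProbabilityTheory Filter

namespace Pool.Agent.N773.RI

variable {d : ℕ} (μ : Measure ℝ) [IsProbabilityMeasure μ]

/-- the law of the couplings -/
noncomputable def Lw (d : ℕ) (μ : Measure ℝ) [IsProbabilityMeasure μ] :
    Measure ((Fin d → ℤ) × Fin d → ℝ) := Measure.infinitePi fun _ => μ

instance (d : ℕ) (μ : Measure ℝ) [IsProbabilityMeasure μ] : IsProbabilityMeasure (Lw d μ) := by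
  unfold Lw; infer_instance

/-- the range of values of a bond in a trap -/
def win (a ε : ℝ) (v : Fin d → ℤ) (j : Fin d) (m : ℕ) (e : (Fin d → ℤ) × Fin d) : Set ℝ :=
  if e ∈ cb v j m then {x | a ≤ |x|} else {x | |x| ≤ ε}

lemma win_meas (a ε : ℝ) (v : Fin d → ℤ) (j : Fin d) (m : ℕ) (e : (Fin d → ℤ) × Fin d) :
    MeasurableSet (win a ε v j m e) := by
  unfold win
  split_ifs
  · exact measurableSet_le measurable_const continuous_abs.measurable
  · exact measurableSet_le continuous_abs.measurable measurable_const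

lemma trap_eq (a ε : ℝ) (v : Fin d → ℤ) (j : Fin d) (m : ℕ) :
    {J : (Fin d → ℤ) × Fin d → ℝ | Trap a ε J v j m} =
      Set.pi (tb v j m : Set ((Fin d → ℤ) × Fin d)) (fun e => win a ε v j m e) := by
  ext J
  simp only [Set.mem_setOf_eq, Set.mem_pi, Finset.mem_coe, Trap]
  refine forall₂_congr fun e _ => ?_
  unfold win
  by_cases h : e ∈ cb v j m
  · rw [if_pos h]
    exact ⟨fun h1 => h1.1 h, fun h1 => ⟨fun _ => h1, fun h2 => absurd h h2⟩⟩
  · rw [if_neg h]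
    exact ⟨fun h1 => h1.2 h, fun h1 => ⟨fun h2 => absurd h2 h, fun _ => h1⟩⟩

lemma trap_meas (a ε : ℝ) (v : Fin d → ℤ) (j : Fin d) (m : ℕ) :
    MeasurableSet {J : (Fin d → ℤ) × Fin d → ℝ | Trap a ε J v j m} := by
  rw [trap_eq]
  exact MeasurableSet.pi (Finset.countable_toSet _) fun e _ => win_meas a ε v j m e

lemma trap_ge {a ε q : ℝ} (hq0 : 0 ≤ q) (hq1 : q ≤ 1)
    (h0 : ENNReal.ofReal q ≤ μ {x | |x| ≤ ε}) (h1 : ENNReal.ofReal q ≤ μ {x | a ≤ |x|})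
    (v : Fin d → ℤ) (j : Fin d) (m : ℕ) :
    ENNReal.ofReal (q ^ (2 * d * (m + 1))) ≤
      Lw d μ {J : (Fin d → ℤ) × Fin d → ℝ | Trap a ε J v j m} := by
  rw [trap_eq]
  unfold Lw
  rw [Measure.infinitePi_pi _ (fun e _ => win_meas a ε v j m e)]
  refine (ENNReal.ofReal_le_ofReal (pow_le_pow_of_le_one hq0 hq1 (card_tb v j m))).trans ?_
  rw [ENNReal.ofReal_pow hq0]
  refine Finset.pow_card_le_prod _ _ _ fun e _ => ?_
  unfold win
  split_ifs
  · exact h1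
  · exact h0

/-- the places of the chains -/
def pl (x : Fin d → ℤ) (i : Fin d) (k : ℕ) : Fin d → ℤ := x + Pi.single i (2 * (k : ℤ))

/-- the number of the chain near a bond -/
def ctr (x : Fin d → ℤ) (i : Fin d) (e : (Fin d → ℤ) × Fin d) : ℕ :=
  ((e.1 i - x i + 1) / 2).toNat

lemma ctr_eq {x : Fin d → ℤ} {i j : Fin d} (hij : i ≠ j) {m k : ℕ} {e : (Fin d → ℤ) × Fin d}
    (he : e ∈ tb (pl x i k) j m) : ctr x i e = k := by
  have hch : ∀ y : ℕ, ch (pl x i k) j y i = x i + 2 * k := by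
    intro y
    simp [ch, pl, hij]
  rcases mem_tb.1 he with ⟨y, -, h⟩ | ⟨y, -, h⟩
  · have h1 := congrFun h i
    rw [hch] at h1
    unfold ctr
    omega
  · have h1 := congrFun h i
    rw [hch, Pi.add_apply] at h1
    have h2 : (Pi.single e.2 (1 : ℤ) : Fin d → ℤ) i = 0 ∨
        (Pi.single e.2 (1 : ℤ) : Fin d → ℤ) i = 1 := by
      by_cases h3 : i = e.2
      · right; rw [h3, Pi.single_eq_same]
      · left; rw [Pi.single_eq_of_ne h3]
    unfold ctr
    rcases h2 with h2 | h2 <;> rw [h2] at h1 <;> omega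

lemma indep (a ε : ℝ) (x : Fin d → ℤ) {i j : Fin d} (hij : i ≠ j) (m : ℕ) :
    iIndepSet (fun k : ℕ => {J : (Fin d → ℤ) × Fin d → ℝ | Trap a ε J (pl x i k) j m})
      (Lw d μ) := by
  classical
  rw [iIndepSet_iff_meas_biInter (fun k => trap_meas a ε _ j m)]
  intro S
  have hset : ∀ k, {J : (Fin d → ℤ) × Fin d → ℝ | Trap a ε J (pl x i k) j m} =
      Set.pi (tb (pl x i k) j m : Set ((Fin d → ℤ) × Fin d))
        (fun e => win a ε (pl x i (ctr x i e)) j m e) := by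
    intro k
    rw [trap_eq]
    refine Set.pi_congr rfl fun e he => ?_
    rw [ctr_eq hij he]
  have hinter : (⋂ k ∈ S, {J : (Fin d → ℤ) × Fin d → ℝ | Trap a ε J (pl x i k) j m}) =
      Set.pi ((S.biUnion fun k => tb (pl x i k) j m : Finset _) : Set ((Fin d → ℤ) × Fin d))
        (fun e => win a ε (pl x i (ctr x i e)) j m e) := by
    ext J
    simp only [Set.mem_iInter, hset, Set.mem_pi, Finset.coe_biUnion, Set.mem_iUnion,
      Finset.mem_coe]
    constructor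
    · rintro h e ⟨k, hk, he⟩
      exact h k hk e he
    · intro h k hk e he
      exact h e ⟨k, hk, he⟩
  rw [hinter]
  unfold Lw
  rw [Measure.infinitePi_pi _ (fun e _ => win_meas a ε _ j m e), Finset.prod_biUnion]
  · refine Finset.prod_congr rfl fun k _ => ?_
    rw [hset, Measure.infinitePi_pi _ (fun e _ => win_meas a ε _ j m e)]
  · intro k _ k' _ hkk'
    rw [Function.onFun, Finset.disjoint_left]
    intro e he he'
    exact hkk' ((ctr_eq hij he).symm.trans (ctr_eq hij he'))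

lemma none_le {a ε p : ℝ} (x : Fin d → ℤ) {i j : Fin d} (hij : i ≠ j) (m : ℕ) (hp0 : 0 ≤ p)
    (hp : ∀ v, ENNReal.ofReal p ≤ Lw d μ {J : (Fin d → ℤ) × Fin d → ℝ | Trap a ε J v j m})
    (M : ℕ) :
    Lw d μ (⋂ k ∈ Finset.range M, {J : (Fin d → ℤ) × Fin d → ℝ | Trap a ε J (pl x i k) j m}ᶜ) ≤
      ENNReal.ofReal (Real.exp (-(M * p))) := by
  have hi := (iIndepSet_iff_iIndep _ _).1 (indep μ a ε x hij m)
  rw [hi.meas_biInter (S := Finset.range M)
    (s := fun k => {J : (Fin d → ℤ) × Fin d → ℝ | Trap a ε J (pl x i k) j m}ᶜ)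
    (fun j _ => MeasurableSet.compl
      (MeasurableSpace.measurableSet_generateFrom (Set.mem_singleton _)))]
  have h1 : ∀ k ∈ Finset.range M,
      Lw d μ ({J : (Fin d → ℤ) × Fin d → ℝ | Trap a ε J (pl x i k) j m}ᶜ) ≤
        ENNReal.ofReal (Real.exp (-p)) := by
    intro k _
    rw [prob_compl_eq_one_sub (trap_meas a ε _ j m)]
    refine (tsub_le_tsub_left (hp _) 1).trans ?_
    rw [← ENNReal.ofReal_one, ← ENNReal.ofReal_sub _ hp0]
    exact ENNReal.ofReal_le_ofReal (by linarith [Real.add_one_le_exp (-p)])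
  refine (Finset.prod_le_prod' h1).trans (le_of_eq ?_)
  rw [Finset.prod_const, Finset.card_range, ← ENNReal.ofReal_pow (Real.exp_pos _).le,
    ← Real.exp_nat_mul]
  congr 2
  ring

/-- no chain near some place -/
def Bad (a : ℝ) (ε : ℕ → ℝ) (m T : ℕ → ℕ) (n : ℕ) : Set ((Fin d → ℤ) × Fin d → ℝ) :=
  {J | ∃ x : Fin d → ℤ, (∀ l, |x l| ≤ n) ∧ ∃ i j : Fin d, i ≠ j ∧
    ∀ k < T n, ¬ Trap a (ε n) J (pl x i k) j (m n)}

lemma bad_le {a : ℝ} {ε : ℕ → ℝ} {m T : ℕ → ℕ} {n : ℕ} {q : ℝ} (hq0 : 0 ≤ q) (hq1 : q ≤ 1)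
    (h0 : ENNReal.ofReal q ≤ μ {x | |x| ≤ ε n}) (h1 : ENNReal.ofReal q ≤ μ {x | a ≤ |x|}) :
    Lw d μ (Bad a ε m T n) ≤ ENNReal.ofReal (((2 * n + 1) ^ d * d ^ 2 : ℕ) *
      Real.exp (-(T n * q ^ (2 * d * (m n + 1))))) := by
  classical
  set F : Finset ((Fin d → ℤ) × Fin d × Fin d) :=
    (Fintype.piFinset fun _ : Fin d => Finset.Icc (-(n : ℤ)) n) ×ˢ
      (Finset.univ : Finset (Fin d × Fin d)) with hF
  have hsub : Bad a ε m T n ⊆ ⋃ f ∈ F.filter (fun f => f.2.1 ≠ f.2.2),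
      ⋂ k ∈ Finset.range (T n),
        {J : (Fin d → ℤ) × Fin d → ℝ | Trap a (ε n) J (pl f.1 f.2.1 k) f.2.2 (m n)}ᶜ := by
    rintro J ⟨x, hx, i, j, hij, h⟩
    rw [Set.mem_iUnion₂]
    refine ⟨(x, i, j), ?_, ?_⟩
    · rw [Finset.mem_filter, hF, Finset.mem_product, Fintype.mem_piFinset]
      exact ⟨⟨fun l => Finset.mem_Icc.2 (abs_le.1 (hx l)), Finset.mem_univ _⟩, hij⟩
    · rw [Set.mem_iInter₂]
      intro k hk
      exact h k (Finset.mem_range.1 hk)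
  refine (measure_mono hsub).trans ((measure_biUnion_finset_le _ _).trans ?_)
  have hb : ∀ f ∈ F.filter (fun f => f.2.1 ≠ f.2.2),
      Lw d μ (⋂ k ∈ Finset.range (T n),
        {J : (Fin d → ℤ) × Fin d → ℝ | Trap a (ε n) J (pl f.1 f.2.1 k) f.2.2 (m n)}ᶜ) ≤
        ENNReal.ofReal (Real.exp (-(T n * q ^ (2 * d * (m n + 1))))) := by
    intro f hf
    exact none_le μ f.1 (Finset.mem_filter.1 hf).2 (m n) (pow_nonneg hq0 _)
      (fun v => trap_ge μ hq0 hq1 h0 h1 v f.2.2 (m n)) (T n)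
  refine (Finset.sum_le_card_nsmul _ _ _ hb).trans ?_
  have hcard : (F.filter (fun f => f.2.1 ≠ f.2.2)).card ≤ (2 * n + 1) ^ d * d ^ 2 := by
    refine (Finset.card_filter_le _ _).trans (le_of_eq ?_)
    rw [hF, Finset.card_product, Fintype.card_piFinset, Finset.prod_const, Finset.card_univ,
      Fintype.card_fin, Finset.card_univ, Fintype.card_prod, Fintype.card_fin, Int.card_Icc]
    have : ((n : ℤ) + 1 - -(n : ℤ)).toNat = 2 * n + 1 := by omega
    rw [this, sq]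
  rw [nsmul_eq_mul, ENNReal.ofReal_mul (by positivity), ENNReal.ofReal_natCast]
  gcongr

/-- **Borel-Cantelli.** -/
theorem eventually_good {a : ℝ} {ε : ℕ → ℝ} {m T : ℕ → ℕ} {q : ℕ → ℝ} {n1 : ℕ}
    (hq0 : ∀ n, 0 ≤ q n) (hq1 : ∀ n, q n ≤ 1)
    (h0 : ∀ n, ENNReal.ofReal (q n) ≤ μ {x | |x| ≤ ε n})
    (h1 : ∀ n, ENNReal.ofReal (q n) ≤ μ {x | a ≤ |x|})
    (hT : ∀ n, n1 ≤ n → ((d : ℝ) + 2) * Real.log n ≤ T n * q n ^ (2 * d * (m n + 1))) :
    ∀ᵐ J ∂(Lw d μ), ∃ n₀ : ℕ, ∀ n, n₀ ≤ n → ∀ x : Fin d → ℤ, (∀ l, |x l| ≤ n) →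
      ∀ i j : Fin d, i ≠ j → ∃ k < T n, Trap a (ε n) J (pl x i k) j (m n) := by
  have hb : ∀ n : ℕ, Lw d μ (Bad a ε m T (n + (n1 + 1))) ≤
      ENNReal.ofReal ((3 ^ d * d ^ 2 : ℕ) * (1 / ((n : ℝ) + 1) ^ 2)) := by
    intro n
    set N := n + (n1 + 1) with hN
    refine (bad_le μ (hq0 N) (hq1 N) (h0 N) (h1 N)).trans (ENNReal.ofReal_le_ofReal ?_)
    have hNpos : (0 : ℝ) < N := by
      have : 0 < N := by omega
      exact_mod_cast this
    have h2 : Real.exp (-(T N * q N ^ (2 * d * (m N + 1)))) ≤ 1 / (N : ℝ) ^ (d + 2) := by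
      have h3 := hT N (by omega)
      have h4 : Real.exp (-(((d : ℝ) + 2) * Real.log N)) = 1 / (N : ℝ) ^ (d + 2) := by
        have h5 : ((d : ℝ) + 2) * Real.log N = Real.log ((N : ℝ) ^ (d + 2)) := by
          rw [Real.log_pow]; push_cast; ring
        rw [h5, Real.exp_neg, Real.exp_log (by positivity), one_div]
      rw [← h4]
      exact Real.exp_le_exp.2 (by linarith)
    have h3 : (((2 * N + 1) ^ d * d ^ 2 : ℕ) : ℝ) ≤ (3 ^ d * d ^ 2 : ℕ) * (N : ℝ) ^ d := by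
      have h4 : (2 * N + 1) ^ d * d ^ 2 ≤ 3 ^ d * d ^ 2 * N ^ d := by
        have h5 : (2 * N + 1) ^ d ≤ (3 * N) ^ d := Nat.pow_le_pow_left (by omega) d
        rw [mul_pow] at h5
        calc (2 * N + 1) ^ d * d ^ 2 ≤ 3 ^ d * N ^ d * d ^ 2 := Nat.mul_le_mul_right _ h5
          _ = 3 ^ d * d ^ 2 * N ^ d := by ring
      exact_mod_cast h4
    have h6 : (((2 * N + 1) ^ d * d ^ 2 : ℕ) : ℝ) *
        Real.exp (-(T N * q N ^ (2 * d * (m N + 1)))) ≤
        ((3 ^ d * d ^ 2 : ℕ) * (N : ℝ) ^ d) * (1 / (N : ℝ) ^ (d + 2)) :=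
      mul_le_mul h3 h2 (Real.exp_pos _).le (by positivity)
    refine h6.trans ?_
    have h7 : ((3 ^ d * d ^ 2 : ℕ) * (N : ℝ) ^ d) * (1 / (N : ℝ) ^ (d + 2)) =
        (3 ^ d * d ^ 2 : ℕ) * (1 / (N : ℝ) ^ 2) := by
      rw [pow_add]
      field_simp
    rw [h7]
    refine mul_le_mul_of_nonneg_left ?_ (by positivity)
    apply one_div_le_one_div_of_le (by positivity)
    apply pow_le_pow_left₀ (by positivity)
    have : n + 1 ≤ N := by omega
    exact_mod_cast this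
  have hsum : ∑' n : ℕ, Lw d μ (Bad a ε m T (n + (n1 + 1))) ≠ ⊤ := by
    refine ne_top_of_le_ne_top ?_ (ENNReal.tsum_le_tsum hb)
    have hs : Summable fun n : ℕ => ((3 ^ d * d ^ 2 : ℕ) : ℝ) * (1 / ((n : ℝ) + 1) ^ 2) := by
      have h2 := (summable_nat_add_iff (f := fun n : ℕ => 1 / (n : ℝ) ^ 2) 1).2
        (Real.summable_one_div_nat_pow.2 (by norm_num))
      have h3 := h2.mul_left ((3 ^ d * d ^ 2 : ℕ) : ℝ)
      refine h3.congr fun n => ?_
      push_cast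
      rfl
    exact hs.tsum_ofReal_ne_top
  filter_upwards [ae_eventually_notMem hsum] with J hJ
  obtain ⟨n₂, hn₂⟩ := eventually_atTop.1 hJ
  refine ⟨n₂ + (n1 + 1), fun n hn x hx i j hij => ?_⟩
  by_contra hcon
  push Not at hcon
  refine hn₂ (n - (n1 + 1)) (by omega) ?_
  have h2 : n - (n1 + 1) + (n1 + 1) = n := by omega
  rw [h2]
  exact ⟨x, hx, i, j, hij, hcon⟩

end Pool.Agent.N773.RI
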